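import Pool.Agent.H224R2.Mah.Defs

/-! Task C1: the product integral (helper531). -/

namespace Pool.Agent.H224R2.Mah

open MeasureTheory Set Filter Topology
open scoped ENNReal

namespace C1

/-- the volume of the simplex `{s | ∑ s < t}` -/
noncomputable def J (n : ℕ) (t : ℝ) : ℝ≥0∞ :=
  if 0 < t then ENNReal.ofReal (t ^ n / n.factorial) else 0

theorem measurable_J (n : ℕ) : Measurable (J n) := by
  unfold J
  refine Measurable.ite measurableSet_Ioi ?_ measurable_const
  fun_prop

theorem J_step (n : ℕ) {t : ℝ} (ht1 : t ≤ 1) :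
    ∫⁻ s in Ioo (0 : ℝ) 1, J n (t - s) = J (n + 1) t := by
  rcases le_or_gt t 0 with ht | ht
  · have h0 : ∫⁻ s in Ioo (0 : ℝ) 1, J n (t - s) = ∫⁻ _ in Ioo (0 : ℝ) 1, 0 := by
      refine setLIntegral_congr_fun measurableSet_Ioo fun s hs => ?_
      have : ¬ 0 < t - s := by
        have := hs.1
        linarith
      simp only [J, if_neg this]
    rw [h0, lintegral_zero, J, if_neg (not_lt.2 ht)]
  · have h1 : ∫⁻ s in Ioo (0 : ℝ) 1, J n (t - s) =
        ∫⁻ s in Ioo (0 : ℝ) t, ENNReal.ofReal ((t - s) ^ n / n.factorial) := by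
      rw [← lintegral_indicator measurableSet_Ioo, ← lintegral_indicator measurableSet_Ioo]
      refine lintegral_congr fun s => ?_
      by_cases h0 : s ∈ Ioo (0 : ℝ) t
      · rw [indicator_of_mem h0,
          indicator_of_mem (by exact ⟨h0.1, h0.2.trans_le ht1⟩), J, if_pos (sub_pos.2 h0.2)]
      · rw [indicator_of_notMem h0]
        by_cases h1 : s ∈ Ioo (0 : ℝ) 1
        · rw [indicator_of_mem h1, J, if_neg]
          intro h2
          exact h0 ⟨h1.1, sub_pos.1 h2⟩
        · rw [indicator_of_notMem h1]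
    have h2 : ∫ s in Ioo (0 : ℝ) t, (t - s) ^ n / n.factorial =
        t ^ (n + 1) / (n + 1).factorial := by
      rw [← integral_Ioc_eq_integral_Ioo, ← intervalIntegral.integral_of_le ht.le,
        intervalIntegral.integral_div, intervalIntegral.integral_comp_sub_left (fun x => x ^ n),
        integral_pow, sub_self, sub_zero, Nat.factorial_succ, Nat.cast_mul, div_div,
        zero_pow (Nat.succ_ne_zero n), sub_zero]
      push_cast
      ring
    rw [h1, J, if_pos ht, ← h2, ofReal_integral_eq_lintegral_ofReal]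
    · refine (ContinuousOn.integrableOn_Icc (a := 0) (b := t) ?_).mono_set Ioo_subset_Icc_self
      fun_prop
    · refine (ae_restrict_iff' measurableSet_Ioo).2 (Eventually.of_forall fun s hs => ?_)
      have : 0 ≤ t - s := (sub_pos.2 hs.2).le
      positivity

/-- the abstract product integral -/
theorem product {S : ℂ → ℝ} {w : ℂ → ℝ≥0∞} {C : ℝ≥0∞} (hS : Measurable S) (hw : Measurable w)
    (hS0 : ∀ u, 0 ≤ S u)
    (hpush : ∀ f : ℝ → ℝ≥0∞, Measurable f →
      ∫⁻ u, f (S u) * w u = C * ∫⁻ s in Ioo (0 : ℝ) 1, f s) (n : ℕ) :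
    ∀ t : ℝ, t ≤ 1 → ∫⁻ u : Fin n → ℂ,
      {u : Fin n → ℂ | ∑ k, S (u k) < t}.indicator (fun u => ∏ k, w (u k)) u = C ^ n * J n t := by
  induction n with
  | zero =>
    intro t _
    have h1 : ∀ u : Fin 0 → ℂ, {u : Fin 0 → ℂ | ∑ k, S (u k) < t}.indicator
        (fun u => ∏ k, w (u k)) u = J 0 t := by
      intro u
      by_cases ht : 0 < t
      · rw [indicator_of_mem (by simpa using ht), J, if_pos ht]
        simp
      · rw [indicator_of_notMem (by simpa using ht), J, if_neg ht]
    simp only [h1]
    rw [lintegral_const]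
    simp [volume_pi]
  | succ n ih =>
    intro t ht
    have hmeas : ∀ t : ℝ, Measurable fun u : Fin n → ℂ =>
        {u : Fin n → ℂ | ∑ k, S (u k) < t}.indicator (fun u => ∏ k, w (u k)) u := by
      intro t
      refine Measurable.indicator ?_ ?_
      · exact Finset.measurable_prod _ fun k _ => hw.comp (measurable_pi_apply k)
      · exact measurableSet_lt (Finset.measurable_sum _ fun k _ =>
          hS.comp (measurable_pi_apply k)) measurable_const
    have e := volume_preserving_piFinSuccAbove (fun _ : Fin (n + 1) => ℂ) 0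
    have h1 : ∫⁻ u : Fin (n + 1) → ℂ,
        {u : Fin (n + 1) → ℂ | ∑ k, S (u k) < t}.indicator (fun u => ∏ k, w (u k)) u =
        ∫⁻ z : ℂ × (Fin n → ℂ), {z : ℂ × (Fin n → ℂ) | S z.1 + ∑ k, S (z.2 k) < t}.indicator
          (fun z => w z.1 * ∏ k, w (z.2 k)) z := by
      rw [← e.lintegral_comp_emb (MeasurableEquiv.measurableEmbedding _)]
      refine lintegral_congr fun u => ?_
      simp only [indicator, mem_ofPred_eq, MeasurableEquiv.piFinSuccAbove_apply,
        Fin.insertNthEquiv_symm_apply, Fin.sum_univ_succ, Fin.prod_univ_succ, Fin.removeNth,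
        Fin.zero_succAbove]
    have hmeas2 : Measurable fun z : ℂ × (Fin n → ℂ) =>
        {z : ℂ × (Fin n → ℂ) | S z.1 + ∑ k, S (z.2 k) < t}.indicator
          (fun z => w z.1 * ∏ k, w (z.2 k)) z := by
      refine Measurable.indicator ?_ ?_
      · exact (hw.comp measurable_fst).mul (Finset.measurable_prod _ fun k _ =>
          hw.comp ((measurable_pi_apply k).comp measurable_snd))
      · exact measurableSet_lt ((hS.comp measurable_fst).add (Finset.measurable_sum _ fun k _ =>
          hS.comp ((measurable_pi_apply k).comp measurable_snd))) measurable_const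
    rw [h1, Measure.volume_eq_prod, lintegral_prod _ hmeas2.aemeasurable]
    have h2 : ∀ x : ℂ, ∫⁻ v : Fin n → ℂ,
        {z : ℂ × (Fin n → ℂ) | S z.1 + ∑ k, S (z.2 k) < t}.indicator
          (fun z => w z.1 * ∏ k, w (z.2 k)) (x, v) = C ^ n * (J n (t - S x) * w x) := by
      intro x
      have h3 : ∀ v : Fin n → ℂ, {z : ℂ × (Fin n → ℂ) | S z.1 + ∑ k, S (z.2 k) < t}.indicator
          (fun z => w z.1 * ∏ k, w (z.2 k)) (x, v) =
          w x * {u : Fin n → ℂ | ∑ k, S (u k) < t - S x}.indicator (fun u => ∏ k, w (u k)) v := by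
        intro v
        by_cases hv : S x + ∑ k, S (v k) < t
        · rw [indicator_of_mem (by exact hv), indicator_of_mem (by
            change ∑ k, S (v k) < t - S x
            linarith)]
        · rw [indicator_of_notMem (by exact hv), indicator_of_notMem (by
            change ¬ ∑ k, S (v k) < t - S x
            intro h
            exact hv (by linarith)), mul_zero]
      simp only [h3]
      rw [lintegral_const_mul _ (hmeas _), ih (t - S x) (by linarith [hS0 x])]
      ring
    simp only [h2]
    have hJ : Measurable fun s => J n (t - s) := (measurable_J n).comp (measurable_const.sub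
      measurable_id)
    have hm2 : Measurable fun x => J n (t - S x) * w x := (hJ.comp hS).mul hw
    rw [lintegral_const_mul _ hm2, hpush _ hJ, J_step n ht, pow_succ]
    ring

end C1

/-- C1. The product integral (uses `Dom.push`, product measures, volume of the simplex). -/
theorem C1_product {P : Set ℂ} {S : ℕ → ℂ → ℝ} (hD : Dom P S) (n : ℕ) {m : ℕ} (hm : 2 ≤ m)
    {t : ℝ} (ht0 : 0 < t) (ht1 : t ≤ 1) :
    ∫⁻ u in {u : Fin n → ℂ | (∀ k, u k ∈ P) ∧ ∑ k, S m (u k) < t},
      ∏ k, ENNReal.ofReal (lap (S m) (u k)) =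
      ENNReal.ofReal ((4 * Real.pi * m) ^ n * t ^ n / n.factorial) := by
  classical
  have hPm : MeasurableSet P := hD.isOpen.measurableSet
  have hsm : ContDiffOn ℝ 3 (S m) P := (hD.psh m hm).smooth
  have hmpos : (0 : ℝ) < 2 * m := by positivity
  -- smoothness of the derivatives
  have hfd : ∀ {k l : ℕ∞} (f : ℂ → ℝ), ContDiffOn ℝ k f P → l + 1 ≤ k → ∀ w : ℂ,
      ContDiffOn ℝ l (fun u => fderiv ℝ f u w) P := by
    intro k l f hf hkl w
    have h1 : ContDiffOn ℝ l (fderiv ℝ f) P :=
      hf.fderiv_of_isOpen hD.isOpen (by exact_mod_cast hkl)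
    exact h1.clm_apply contDiffOn_const
  have hlap : ContinuousOn (lap (S m)) P := by
    have h1 : ContDiffOn ℝ (2 : ℕ∞) (dx (S m)) P :=
      hfd (k := 3) (S m) (by exact_mod_cast hsm) (by norm_num) 1
    have h2 : ContDiffOn ℝ (2 : ℕ∞) (dy (S m)) P :=
      hfd (k := 3) (S m) (by exact_mod_cast hsm) (by norm_num) Complex.I
    have h3 : ContDiffOn ℝ (1 : ℕ∞) (dx (dx (S m))) P := hfd _ h1 (by norm_num) 1
    have h4 : ContDiffOn ℝ (1 : ℕ∞) (dy (dy (S m))) P := hfd _ h2 (by norm_num) Complex.I
    exact h3.continuousOn.add h4.continuousOn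
  -- measurable extensions
  set S' : ℂ → ℝ := P.indicator (S m) with hS'
  set w : ℂ → ℝ≥0∞ := P.indicator fun u => ENNReal.ofReal (lap (S m) u / (2 * m)) with hw
  have hS'm : Measurable S' := by
    rw [hS', ← piecewise_eq_indicator]
    exact hsm.continuousOn.measurable_piecewise continuousOn_const hPm
  have hwm : Measurable w := by
    rw [hw, ← piecewise_eq_indicator]
    refine ContinuousOn.measurable_piecewise ?_ continuousOn_const hPm
    exact ENNReal.continuous_ofReal.comp_continuousOn (hlap.div_const _)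
  have hS'0 : ∀ u, 0 ≤ S' u := fun u => indicator_nonneg (fun u hu => (hD.psh m hm).nonneg u hu) u
  have hpush : ∀ f : ℝ → ℝ≥0∞, Measurable f → ∫⁻ u, f (S' u) * w u =
      ENNReal.ofReal (2 * Real.pi) * ∫⁻ s in Ioo (0 : ℝ) 1, f s := by
    intro f hf
    rw [← hD.push m hm f hf, ← lintegral_indicator hPm]
    refine lintegral_congr fun u => ?_
    by_cases hu : u ∈ P
    · rw [hS', hw, indicator_of_mem hu, indicator_of_mem hu, indicator_of_mem hu]
    · rw [hw, indicator_of_notMem hu, indicator_of_notMem hu, mul_zero]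
  have key := C1.product hS'm hwm hS'0 hpush n t ht1
  have hA : MeasurableSet {u : Fin n → ℂ | (∀ k, u k ∈ P) ∧ ∑ k, S m (u k) < t} := by
    have h1 : {u : Fin n → ℂ | (∀ k, u k ∈ P) ∧ ∑ k, S m (u k) < t} =
        (⋂ k, (fun u : Fin n → ℂ => u k) ⁻¹' P) ∩ {u : Fin n → ℂ | ∑ k, S' (u k) < t} := by
      ext u
      simp only [mem_ofPred_eq, mem_inter_iff, mem_iInter, mem_preimage]
      refine and_congr_right fun hu => ?_
      have : ∀ k, S' (u k) = S m (u k) := fun k => indicator_of_mem (hu k) _
      simp only [this]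
    rw [h1]
    refine (MeasurableSet.iInter fun k => measurable_pi_apply k hPm).inter ?_
    exact measurableSet_lt (Finset.measurable_sum _ fun k _ =>
      hS'm.comp (measurable_pi_apply k)) measurable_const
  rw [← lintegral_indicator hA]
  have hpt : ∀ u : Fin n → ℂ, {u : Fin n → ℂ | (∀ k, u k ∈ P) ∧ ∑ k, S m (u k) < t}.indicator
      (fun u => ∏ k, ENNReal.ofReal (lap (S m) (u k))) u =
      ENNReal.ofReal (2 * m) ^ n *
        {u : Fin n → ℂ | ∑ k, S' (u k) < t}.indicator (fun u => ∏ k, w (u k)) u := by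
    intro u
    by_cases hu : ∀ k, u k ∈ P
    · have h1 : ∀ k, S' (u k) = S m (u k) := fun k => indicator_of_mem (hu k) _
      have h2 : ∀ k, ENNReal.ofReal (lap (S m) (u k)) = ENNReal.ofReal (2 * m) * w (u k) := by
        intro k
        have h3 : w (u k) = ENNReal.ofReal (lap (S m) (u k) / (2 * m)) := indicator_of_mem (hu k) _
        rw [h3, ← ENNReal.ofReal_mul hmpos.le, mul_div_cancel₀ _ hmpos.ne']
      by_cases ht : ∑ k, S m (u k) < t
      · rw [indicator_of_mem (by exact ⟨hu, ht⟩), indicator_of_mem (by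
          change ∑ k, S' (u k) < t
          simpa only [h1] using ht)]
        simp only [h2, Finset.prod_mul_distrib, Finset.prod_const, Finset.card_univ,
          Fintype.card_fin]
      · rw [indicator_of_notMem (by exact fun h => ht h.2), indicator_of_notMem (by
          change ¬ ∑ k, S' (u k) < t
          simpa only [h1] using ht), mul_zero]
    · rw [indicator_of_notMem (by exact fun h => hu h.1)]
      push Not at hu
      obtain ⟨k, hk⟩ := hu
      have h3 : ∏ k, w (u k) = 0 := Finset.prod_eq_zero (Finset.mem_univ k) (indicator_of_notMem hk _)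
      simp only [indicator, h3, ite_self, mul_zero]
  simp only [hpt]
  rw [lintegral_const_mul, key, C1.J, if_pos ht0, ← mul_assoc, ← mul_pow,
    ← ENNReal.ofReal_mul hmpos.le, ← ENNReal.ofReal_pow (by positivity),
    ← ENNReal.ofReal_mul (by positivity)]
  · congr 1
    rw [mul_div_assoc]
    congr 2
    ring
  · refine Measurable.indicator ?_ ?_
    · exact Finset.measurable_prod _ fun k _ => hwm.comp (measurable_pi_apply k)
    · exact measurableSet_lt (Finset.measurable_sum _ fun k _ =>
          hS'm.comp (measurable_pi_apply k)) measurable_const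

end Pool.Agent.H224R2.Mah
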